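import Mathlib

set_option autoImplicit false

namespace Pool.Agent.Results.MP_541980_co.Counter

/-- Short partizan games: finitely many Left options and finitely many Right options. -/
inductive G : Type
  | node (m n : ℕ) (L : Fin m → G) (R : Fin n → G) : G

/-- The options of Left (`true`) or Right (`false`). -/
def opts : Bool → G → List G
  | true, .node _ _ L _ => List.ofFn L
  | false, .node _ _ _ R => List.ofFn R

/-- The game with the listed Left and Right options. -/
def G.mk (l r : List G) : G := .node l.length r.length l.get r.get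

/-- The size of the game tree (used for termination only). -/
def rk : G → ℕ
  | .node _ _ L R => ∑ i, rk (L i) + ∑ j, rk (R j) + 1

lemma lt {s : Bool} {g x : G} (h : x ∈ opts s g) : rk x < rk g := by
  obtain ⟨m, n, L, R⟩ := g
  cases s <;> obtain ⟨i, rfl⟩ := List.mem_ofFn.1 h <;> rw [rk]
  · have := Finset.single_le_sum (f := fun j => rk (R j)) (fun _ _ => Nat.zero_le _) (Finset.mem_univ i)
    omega
  · have := Finset.single_le_sum (f := fun j => rk (L j)) (fun _ _ => Nat.zero_le _) (Finset.mem_univ i)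
    omega

lemma ot (l r : List G) : opts true (.mk l r) = l := List.ofFn_get l

lemma of (l r : List G) : opts false (.mk l r) = r := List.ofFn_get r

/-- The disjunctive sum. -/
def add (g h : G) : G :=
  .mk ((opts true g).attach.map (fun x => add x.1 h) ++ (opts true h).attach.map fun x => add g x.1)
    ((opts false g).attach.map (fun x => add x.1 h) ++ (opts false h).attach.map fun x => add g x.1)
termination_by rk g + rk h
decreasing_by all_goals (have := lt x.2; omega)

/-- Player `s`, moving first in `g`, wins; `m = true` is misere play, `m = false` normal play. -/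
def Win (m s : Bool) (g : G) : Prop :=
  (opts s g = [] ∧ m = true) ∨ ¬ ∀ x ∈ opts s g, Win m (!s) x
termination_by rk g
decreasing_by exact lt ‹_›

/-- The outcome class: whether Left wins moving first and whether Right wins moving first. -/
def o (m : Bool) (g : G) : Prop × Prop := (Win m true g, Win m false g)

/-- Dicotic games. -/
def Dic (g : G) : Prop := (opts true g = [] ↔ opts false g = []) ∧ ∀ s, ∀ x ∈ opts s g, Dic x
termination_by rk g
decreasing_by exact lt ‹_›

def zero : G := .mk [] []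

def star : G := .mk [zero] [zero]

def Closed (A : Set G) : Prop :=
  (∀ x ∈ A, ∀ y ∈ A, add x y ∈ A) ∧ ∀ x ∈ A, ∀ s, ∀ y ∈ opts s x, y ∈ A

def EvilKernel (A K : Set G) : Prop :=
  K ⊆ A ∧ (∀ g ∈ K, o false g = o true g) ∧
    ∀ g ∈ A \ K, o false g = o true (add g star) ∧ o false (add g star) = o true g

def EvillyNormal (A K : Set G) : Prop :=
  (∀ g ∈ A, Dic g) ∧ Closed A ∧ EvilKernel A K ∧
    ∀ x ∈ A, ∀ y ∈ A, (add x y ∉ K ↔ x ∉ K ∧ y ∉ K)

/-- Invertible modulo dicotic games. -/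
def Invertible (g : G) : Prop :=
  Dic g ∧ ∃ h, Dic h ∧ ∀ x, Dic x → o true (add (add g h) x) = o true (add zero x)

lemma opts_add (s : Bool) (g h : G) :
    opts s (add g h) = (opts s g).map (add · h) ++ (opts s h).map (add g ·) := by
  rw [add]
  cases s <;> simp [ot, of]

lemma mem_add {s : Bool} {g h y : G} :
    y ∈ opts s (add g h) ↔ (∃ x ∈ opts s g, add x h = y) ∨ ∃ x ∈ opts s h, add g x = y := by
  simp [opts_add]

lemma ind2 {P : G → G → Prop}
    (H : ∀ g h, (∀ g' h', rk g' + rk h' < rk g + rk h → P g' h') → P g h) (g h : G) :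
    P g h := by
  induction' e : rk g + rk h using Nat.strong_induction_on with n ih generalizing g h
  exact H g h fun g' h' l => ih _ (e ▸ l) g' h' rfl

lemma win_end (S X : G) : (∀ s, opts s X = []) → ∀ s, Win true s (add S X) ↔ Win true s S := by
  induction' S, X using ind2 with S X ih
  intro hX s
  rw [Win, Win, opts_add, hX]
  simp only [List.map_nil, List.append_nil, List.map_eq_nil_iff, List.forall_mem_map]
  exact or_congr_right (not_congr (forall₂_congr fun x hx =>
    ih x X (by have := lt hx; omega) hX _))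

lemma win_zero (T : Set G) (hT : ∀ S ∈ T, ∀ s, Win true s S ∧ ∀ y ∈ opts s S, ∃ z ∈ opts (!s) y, z ∈ T)
    (S X : G) : S ∈ T → Dic X → ∀ s, Win true s (add S X) ↔ Win true s X := by
  induction' S, X using ind2 with S X ih
  intro hS hX s
  rw [Dic] at hX
  have h1 := fun x (hx : x ∈ opts s X) => ih S x (by have := lt hx; omega) hS (hX.2 s x hx) (!s)
  by_cases e : opts s X = []
  · rw [win_end S X fun t => by cases s <;> cases t <;> simp_all, Win.eq_1 true s X]
    simp [e, (hT S hS s).1]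
  refine ⟨fun h => by_contra fun hn => ?_, fun h => ?_⟩
  · rw [Win] at h
    simp only [opts_add, List.append_eq_nil_iff, List.map_eq_nil_iff, e, and_false, false_and,
      false_or, List.forall_mem_append, List.forall_mem_map] at h
    refine h ⟨fun y hy => ?_, fun x hx => (h1 x hx).2 ?_⟩
    · obtain ⟨z, hz, hzT⟩ := (hT S hS s).2 y hy
      rw [Win]
      refine Or.inr fun h => hn ?_
      have := h _ (mem_add.2 (Or.inl ⟨z, hz, rfl⟩))
      rw [Bool.not_not] at this
      exact (ih z X (by have := lt hz; have := lt hy; omega) hzT (by rw [Dic]; exact hX) s).1 this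
    · rw [Win] at hn
      exact not_not.1 (not_or.1 hn).2 x hx
  · rw [Win] at h ⊢
    exact Or.inr fun hn => (h.resolve_left fun h => e h.1) fun x hx =>
      (h1 x hx).1 (hn _ (mem_add.2 (Or.inr ⟨x, hx, rfl⟩)))

abbrev P := ℕ × ℕ × ℕ

def Mv (s : Bool) (p q : P) : Prop :=
  (p.1 = q.1 + 1 ∧ p.2.1 = q.2.1 ∧ p.2.2 = q.2.2) ∨
  (p.2.1 = q.2.1 + 1 ∧ p.2.2 = q.2.2 ∧ (q.1 = p.1 ∨ (s.toNat = 1 ∧ q.1 = p.1 + 1))) ∨
  (p.2.2 = q.2.2 + 1 ∧ ((s.toNat = 1 ∧ p.2.1 = q.2.1 ∧ (q.1 = p.1 ∨ q.1 = p.1 + 1)) ∨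
    (s.toNat = 0 ∧ q.1 = p.1 ∧ q.2.1 = p.2.1 + 1)))

def Rep (g : G) (p : P) : Prop :=
  ∀ s, (∀ x ∈ opts s g, ∃ q, Mv s p q ∧ Rep x q) ∧ ∀ q, Mv s p q → ∃ x, ∃ _ : x ∈ opts s g, Rep x q
termination_by rk g
decreasing_by all_goals exact lt ‹_›

lemma rep_add (g h : G) : ∀ p q, Rep g p → Rep h q → Rep (add g h) (p + q) := by
  induction' g, h using ind2 with g h ih
  intro p q hp hq
  have hp' := hp
  have hq' := hq
  rw [Rep] at hp' hq' ⊢
  refine fun s => ⟨fun y hy => ?_, fun r hr => ?_⟩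
  · rcases mem_add.1 hy with ⟨x, hx, rfl⟩ | ⟨x, hx, rfl⟩
    · obtain ⟨r, h1, h2⟩ := (hp' s).1 x hx
      refine ⟨r + q, ?_, ih x h (by have := lt hx; omega) _ _ h2 hq⟩
      simp only [Mv, Prod.fst_add, Prod.snd_add] at h1 ⊢
      omega
    · obtain ⟨r, h1, h2⟩ := (hq' s).1 x hx
      refine ⟨p + r, ?_, ih g x (by have := lt hx; omega) _ _ hp h2⟩
      simp only [Mv, Prod.fst_add, Prod.snd_add] at h1 ⊢
      omega
  · have : (Mv s p (r - q) ∧ r = r - q + q) ∨ (Mv s q (r - p) ∧ r = p + (r - p)) := by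
      simp only [Mv, Prod.fst_add, Prod.snd_add, Prod.fst_sub, Prod.snd_sub, Prod.ext_iff] at hr ⊢
      rcases hr with h | h | h
      · by_cases p.1 = 0
        · exact Or.inr ⟨Or.inl (by omega), by omega⟩
        · exact Or.inl ⟨Or.inl (by omega), by omega⟩
      · by_cases p.2.1 = 0
        · exact Or.inr ⟨Or.inr (Or.inl (by omega)), by omega⟩
        · exact Or.inl ⟨Or.inr (Or.inl (by omega)), by omega⟩
      · by_cases p.2.2 = 0
        · exact Or.inr ⟨Or.inr (Or.inr (by omega)), by omega⟩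
        · exact Or.inl ⟨Or.inr (Or.inr (by omega)), by omega⟩
    rcases this with ⟨h1, h2⟩ | ⟨h1, h2⟩
    · obtain ⟨x, hx, h3⟩ := (hp' s).2 _ h1
      exact ⟨_, mem_add.2 (Or.inl ⟨x, hx, rfl⟩), h2 ▸ ih x h (by have := lt hx; omega) _ _ h3 hq⟩
    · obtain ⟨x, hx, h3⟩ := (hq' s).2 _ h1
      exact ⟨_, mem_add.2 (Or.inr ⟨x, hx, rfl⟩), h2 ▸ ih g x (by have := lt hx; omega) _ _ hp h3⟩

lemma ind {Q : G → Prop} (H : ∀ g, (∀ s, ∀ x ∈ opts s g, Q x) → Q g) (g : G) : Q g :=
  ind2 (P := fun g _ => Q g) (fun g h ih => H g fun s x hx => ih x h (by have := lt hx; omega)) g g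

lemma rep_nil {g : G} {p : P} (h : Rep g p) (s : Bool) : opts s g = [] ↔ p = 0 := by
  rw [Rep, List.eq_nil_iff_forall_not_mem] at *
  refine ⟨fun e => by_contra fun hn => ?_, fun e x hx => ?_⟩
  · have : Mv s p (p.1 - 1, p.2) ∨ Mv s p (p.1, p.2.1 - 1, p.2.2) ∨
        Mv s p (p.1, p.2.1 + 1 - s.toNat, p.2.2 - 1) := by
      cases s <;> simp [Mv, Prod.ext_iff] at hn ⊢ <;> omega
    rcases this with h1 | h1 | h1 <;> exact ((h s).2 _ h1).elim fun x hx => e x hx.1
  · obtain ⟨q, h1, -⟩ := (h s).1 x hx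
    simp [e, Mv] at h1

def W (m s : Bool) (p : P) : Prop :=
  (s.toNat = 1 ∧ (p.2.1 + p.2.2 = 0 → (p.1 + m.toNat) % 2 = 1)) ∨
  (s.toNat = 0 ∧ p.2.2 = 0 ∧ p.2.1 ≤ 1 ∧ (p.1 + p.2.1 + m.toNat) % 2 = 1)

lemma rep_win (m : Bool) (g : G) : ∀ p s, Rep g p → (Win m s g ↔ W m s p) := by
  induction' g using ind with g ih
  intro p s h
  have e : (∀ x ∈ opts s g, Win m (!s) x) ↔ ∀ q, Mv s p q → W m (!s) q := by
    rw [Rep] at h
    refine ⟨fun H q hq => ?_, fun H x hx => ?_⟩
    · obtain ⟨x, hx, h1⟩ := (h s).2 q hq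
      exact (ih s x hx _ _ h1).1 (H x hx)
    · obtain ⟨q, hq, h1⟩ := (h s).1 x hx
      exact (ih s x hx _ _ h1).2 (H q hq)
  rw [Win, rep_nil h, e]
  obtain ⟨a, b, c⟩ := p
  constructor
  · rintro (⟨h1, rfl⟩ | h1)
    · cases s <;> simp_all [W]
    · by_contra hn
      refine h1 fun q hq => ?_
      cases s <;> cases m <;> simp [W, Mv] at hn hq ⊢ <;> omega
  · intro hw
    by_contra hn
    rw [not_or, not_not] at hn
    have h1 := hn.2 (a - 1, b, c)
    have h2 := hn.2 (a, b - 1, c)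
    have h3 := hn.2 (a + 1, b - 1, c)
    have h4 := hn.2 (a, b, c - 1)
    have h5 := hn.2 (a + 1, b, c - 1)
    have h6 := hn.1
    clear hn e h ih
    cases s <;> cases m <;> simp [W, Mv] at * <;> omega

lemma rep_le (g : G) : ∀ p q, Rep g p → Rep g q →
    p.1 + 2 * p.2.1 + 3 * p.2.2 ≤ q.1 + 2 * q.2.1 + 3 * q.2.2 ∧
    p.1 + 2 * p.2.1 + 2 * p.2.2 ≤ q.1 + 2 * q.2.1 + 2 * q.2.2 := by
  induction' g using ind with g ih
  intro p q hp hq
  rw [Rep] at hp hq
  have H : ∀ s r, Mv s p r → ∃ t, Mv s q t ∧ _ := fun s r hr => by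
    obtain ⟨x, hx, h1⟩ := (hp s).2 r hr
    obtain ⟨t, ht, h2⟩ := (hq s).1 x hx
    exact ⟨t, ht, ih s x hx r t h1 h2⟩
  by_cases a : p.1 = 0
  · by_cases b : p.2.1 = 0
    · by_cases c : p.2.2 = 0
      · omega
      · obtain ⟨t, h1, h2⟩ := H true (p.1 + 1, p.2.1, p.2.2 - 1) (by simp [Mv]; omega)
        obtain ⟨u, h3, h4⟩ := H false (p.1, p.2.1 + 1, p.2.2 - 1) (by simp [Mv]; omega)
        simp [Mv] at h1 h2 h3 h4
        omega
    · obtain ⟨t, h1, h2⟩ := H true (p.1 + 1, p.2.1 - 1, p.2.2) (by simp [Mv]; omega)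
      simp [Mv] at h1 h2
      omega
  · obtain ⟨t, h1, h2⟩ := H true (p.1 - 1, p.2) (by simp [Mv]; omega)
    simp [Mv] at h1 h2
    omega

lemma rep_dic (g : G) : ∀ p, Rep g p → Dic g := by
  induction' g using ind with g ih
  intro p h
  rw [Dic, rep_nil h, rep_nil h]
  rw [Rep] at h
  exact ⟨Iff.rfl, fun s x hx => ((h s).1 x hx).elim fun q hq => ih s x hx q hq.2⟩

def u : G := .mk [zero, star] [zero]
def g₀ : G := .mk [zero, star] [u]
def u' : G := .mk [zero] [zero, star]
def g₁ : G := .mk [u'] [zero, star]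

lemma r0 : Rep zero (0, 0, 0) := by
  rw [Rep]; intro s; cases s <;> simp [ot, of, zero, Mv]

lemma r1 : Rep star (1, 0, 0) := by
  rw [Rep]; intro s; have := r0; cases s <;> simp_all [ot, of, star, Mv]

lemma r2 : Rep u (0, 1, 0) := by
  rw [Rep]; intro s; have := r0; have := r1; cases s <;> simp_all [ot, of, u, Mv]

lemma r3 : Rep g₀ (0, 0, 1) := by
  rw [Rep]; intro s; have := r0; have := r1; have := r2
  cases s <;> simp_all [ot, of, g₀, Mv]

lemma dic_mk (a b : List G) : Dic (.mk a b) ↔ (a = [] ↔ b = []) ∧ (∀ x ∈ b, Dic x) ∧ ∀ x ∈ a, Dic x := by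
  rw [Dic]; simp [ot, of]

lemma inv : Invertible g₀ := by
  refine ⟨rep_dic _ _ r3, g₁, by simp [g₁, u', star, zero, dic_mk], fun x hx => ?_⟩
  have a0 : ∀ s, opts s zero = [] := by intro s; cases s <;> rfl
  have a1 : ∀ s, opts s star = [zero] := by intro s; cases s <;> rfl
  obtain ⟨a2, a3, a4, a5, a6, a7, a8, a9⟩ : opts true u = [zero, star] ∧ opts false u = [zero] ∧
    opts true u' = [zero] ∧ opts false u' = [zero, star] ∧ opts true g₀ = [zero, star] ∧
    opts false g₀ = [u] ∧ opts true g₁ = [u'] ∧ opts false g₁ = [zero, star] :=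
    ⟨rfl, rfl, rfl, rfl, rfl, rfl, rfl, rfl⟩
  have : ∀ s, Win true s zero := fun s => by rw [Win]; simp [a0]
  have : Win true true (add zero zero) := by rw [Win]; simp [opts_add, *]
  have : Win true false (add zero zero) := by rw [Win]; simp [opts_add, *]
  have : ¬ Win true false (add star zero) := by rw [Win]; simp [opts_add, *]
  have : ¬ Win true true (add zero star) := by rw [Win]; simp [opts_add, *]
  have : ¬ Win true false (add zero star) := by rw [Win]; simp [opts_add, *]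
  have : Win true true (add star star) := by rw [Win]; simp [opts_add, *]
  have : Win true false (add star star) := by rw [Win]; simp [opts_add, *]
  have : ¬ Win true false (add u zero) := by rw [Win]; simp [opts_add, *]
  have : ¬ Win true true (add zero u') := by rw [Win]; simp [opts_add, *]
  have : Win true false (add zero u') := by rw [Win]; simp [opts_add, *]
  have : Win true true (add g₀ zero) := by rw [Win]; simp [opts_add, *]
  have : ¬ Win true true (add zero g₁) := by rw [Win]; simp [opts_add, *]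
  have : Win true false (add zero g₁) := by rw [Win]; simp [opts_add, *]
  have : Win true true (add g₀ star) := by rw [Win]; simp [opts_add, *]
  have : Win true false (add star g₁) := by rw [Win]; simp [opts_add, *]
  have : Win true true (add u u') := by rw [Win]; simp [opts_add, *]
  have : Win true false (add u u') := by rw [Win]; simp [opts_add, *]
  have : ¬ Win true false (add g₀ u') := by rw [Win]; simp [opts_add, *]
  have : ¬ Win true true (add u g₁) := by rw [Win]; simp [opts_add, *]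
  have : Win true true (add g₀ g₁) := by rw [Win]; simp [opts_add, *]
  have : Win true false (add g₀ g₁) := by rw [Win]; simp [opts_add, *]
  have H := win_zero {zero, add zero zero, add star star, add u u', add g₀ g₁} (by
    intro S hS s
    rcases hS with rfl | rfl | rfl | rfl | rfl <;> cases s <;> simp [opts_add, *])
  simp [o, H zero x (by simp) hx, H (add g₀ g₁) x (by simp) hx]

theorem result : ∃ (A K : Set G) (g : G), EvillyNormal A K ∧ g ∈ A ∧ Invertible g ∧ g ∈ K := by
  refine ⟨{g | ∃ p, Rep g p}, {g | ∃ p, Rep g p ∧ p.2.2 ≠ 0}, g₀, ⟨fun g ⟨p, h⟩ => rep_dic g p h,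
    ⟨fun x ⟨p, h⟩ y ⟨q, k⟩ => ⟨_, rep_add x y p q h k⟩, fun x ⟨p, h⟩ s y hy => ?_⟩,
    ⟨fun g ⟨p, h, _⟩ => ⟨p, h⟩, fun g ⟨p, h, c⟩ => ?_, fun g ⟨⟨p, h⟩, _⟩ => ?_⟩,
    fun x ⟨p, h⟩ y ⟨q, k⟩ => ⟨fun H => ⟨fun ⟨r, h, c⟩ => H ⟨_, rep_add x y r q h k, by simp [c]⟩,
      fun ⟨r, k, c⟩ => H ⟨_, rep_add x y p r h k, by simp [c]⟩⟩, fun H ⟨r, l, c⟩ => ?_⟩⟩,
    ⟨_, r3⟩, inv, _, r3, by simp⟩
  · rw [Rep] at h
    exact ((h s).1 y hy).elim fun q hq => ⟨q, hq.2⟩
  · simp [o, rep_win _ g p _ h, W, c]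
  · have k := rep_add _ _ _ _ h r1
    simp [o, rep_win _ g p _ h, rep_win _ _ _ _ k, W]
    omega
  · have h1 := rep_le _ _ _ l (rep_add x y p q h k)
    have h2 := rep_le _ _ _ (rep_add x y p q h k) l
    have h3 : p.2.2 = 0 := by_contra fun e => H.1 ⟨p, h, e⟩
    have h4 : q.2.2 = 0 := by_contra fun e => H.2 ⟨q, k, e⟩
    simp only [Prod.fst_add, Prod.snd_add] at h1 h2
    omega

end Pool.Agent.Results.MP_541980_co.Counter
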